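import Pool.Agent.N783.PF.Loc
import Pool.Agent.N271.PQ.Him
import Pool.Agent.N2.PQ.Cant
import Pool.Agent.N488.PQ.SPL
import Pool.Agent.N878.PQ.Hsp

/-!
# Project PF: classes in the image of the Jacobian give isometric forms (`S_ISO1`) (helper591)

The first part of `frm` is the proof of `him` in `N271/PQ/Him.lean` (helper271).
-/

set_option autoImplicit false
set_option linter.all false

open Polynomial IsDedekindDomain Matrix NumberField WithZero Topology
open scoped Classical

namespace Pool.Agent.N591.PF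

open Pool.Agent.N352.PJ (Mt)
open Pool.Agent.N783.PQ (LocIm tp Gm sg)
open Pool.Agent.N783.PF (fF Apx S_ISO1)
open Pool.Agent.N874.JM (LocF)
open Pool.Agent.N271.PQ (det_Gm gram tp_congr vc)

/-- A class in the image of the Jacobian gives the standard form. -/
theorem frm {F : Type} [Field F] [CharZero F] {g : ℕ} {f h : F[X]} (hf : f.Monic)
    (hd : f.natDegree = 2 * g + 1) (hcop : IsCoprime h f)
    (hsq : IsSquare (Algebra.norm F (AdjoinRoot.mk f h))) (hloc : LocIm F f h) :
    ∃ T : Mt g F, T * Matrix.diagonal (sg g) * Tᵀ = Gm g f h := by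
  obtain ⟨u, v, s, hu, huf, huv, hs⟩ := Pool.Agent.N2.PQ.cant F g f h hf hd hloc
  obtain ⟨z, hz1, hz2⟩ := Pool.Agent.N488.PQ.spl F g f u v hf hd hu huf huv
  obtain ⟨u', hu'⟩ : ∃ u', u' = (-1) ^ u.natDegree * u := ⟨_, rfl⟩
  rw [← hu'] at hs
  have hz1' : ∀ i j, tp g f (u' * z i * z j) = 0 := by
    intro i j
    rw [hu']
    exact hz1 i j
  have huf' : IsCoprime u' f := by
    rw [hu']
    apply IsCoprime.mul_left _ huf
    refine ⟨(-1) ^ u.natDegree, 0, ?_⟩
    rw [← mul_pow, neg_one_mul, neg_neg, one_pow, zero_mul, add_zero]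
  obtain ⟨w, hw⟩ := hs
  -- `s` is prime to `f`
  have hsf : IsCoprime s f := by
    have e1 : IsCoprime (h * u') f := hcop.mul_left huf'
    have e2 : s ^ 2 = h * u' + f * (-w) := by linear_combination -hw
    have e3 : IsCoprime (s ^ 2) f := by
      rw [e2]
      exact e1.add_mul_left_left (-w)
    exact (IsCoprime.pow_left_iff two_pos).1 e3
  obtain ⟨t, b, htb⟩ := hsf
  -- the unit
  have htf : IsCoprime t f := ⟨s, b, by linear_combination htb⟩
  have hnorm : (Gm g f h).det ≠ 0 := by
    rw [det_Gm hf hd]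
    apply mul_ne_zero (pow_ne_zero _ (neg_ne_zero.2 one_ne_zero))
    obtain ⟨a, c, hac⟩ := hcop
    have e1 : AdjoinRoot.mk f a * AdjoinRoot.mk f h = 1 := by
      rw [← map_mul, ← map_one (AdjoinRoot.mk f), AdjoinRoot.mk_eq_mk]
      exact ⟨-c, by linear_combination hac⟩
    have e2 : Algebra.norm F (AdjoinRoot.mk f a) * Algebra.norm F (AdjoinRoot.mk f h) = 1 := by
      rw [← map_mul, e1, map_one]
    exact right_ne_zero_of_mul_eq_one e2
  have hsym : (Gm g f h).IsSymm := by
    ext i j
    unfold Gm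
    rw [Matrix.transpose_apply, Matrix.of_apply, Matrix.of_apply, add_comm (j : ℕ)]
  have hsq' : IsSquare ((-1) ^ g * (Gm g f h).det) := by
    rw [det_Gm hf hd, ← mul_assoc, ← mul_pow, neg_one_mul, neg_neg, one_pow, one_mul]
    exact hsq
  have hlag : ∃ z : Fin g → Fin (2 * g + 1) → F, LinearIndependent F z ∧
      ∀ i j, z i ⬝ᵥ (Gm g f h *ᵥ z j) = 0 := by
    refine ⟨fun i => vc g f (z i * (u' * t)), ?_, ?_⟩
    · rw [Fintype.linearIndependent_iff]
      intro c hc i
      have e1 : (∑ i, C (c i) * (z i * (u' * t))) %ₘ f = 0 := by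
        have e0 : ∀ P : F[X], P %ₘ f = modByMonicHom f P := fun P => rfl
        rw [e0, map_sum]
        have e4 : ∀ i, modByMonicHom f (C (c i) * (z i * (u' * t))) =
            c i • ((z i * (u' * t)) %ₘ f) := by
          intro i
          rw [← smul_eq_C_mul, map_smul]
          rfl
        rw [Finset.sum_congr rfl fun i _ => e4 i]
        ext m
        rw [finset_sum_coeff, coeff_zero]
        by_cases hm : m < 2 * g + 1
        · have e5 := congrFun hc ⟨m, hm⟩
          rw [Finset.sum_apply] at e5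
          rw [Pi.zero_apply] at e5
          rw [← e5]
          refine Finset.sum_congr rfl fun i _ => ?_
          rw [coeff_smul, Pi.smul_apply]
          rfl
        · apply Finset.sum_eq_zero
          intro i _
          rw [coeff_smul]
          have e6 : ((z i * (u' * t)) %ₘ f).coeff m = 0 := by
            apply coeff_eq_zero_of_degree_lt
            refine lt_of_lt_of_le (degree_modByMonic_lt _ hf) ?_
            rw [degree_eq_natDegree hf.ne_zero, hd]
            exact_mod_cast (by omega : 2 * g + 1 ≤ m)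
          rw [e6, smul_zero]
      have e2 : f ∣ (∑ i, C (c i) * z i) * (u' * t) := by
        rw [← modByMonic_eq_zero_iff_dvd hf, Finset.sum_mul, ← e1]
        congr 1
        refine Finset.sum_congr rfl fun i _ => ?_
        ring
      have e3 : IsCoprime f (u' * t) := (huf'.mul_left htf).symm
      have e4 := hz2 c (e3.dvd_of_dvd_mul_right e2)
      rw [e4, Pi.zero_apply]
    · intro i j
      rw [gram hf hd, ← hz1' i j]
      apply tp_congr hf
      -- `h u' ^ 2 t ^ 2 z z' = u' z z'` modulo `f`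
      refine ⟨u' * z i * z j * (w * t ^ 2 - b * (t * s + 1)), ?_⟩
      linear_combination (u' * z i * z j * t ^ 2) * hw + (u' * z i * z j * (t * s + 1)) * htb
  exact Pool.Agent.N878.PQ.hsp F g (Gm g f h) hsym hsq' hnorm hlag

/-- A class in the image of the Jacobian gives a form which is isometric to that of `1`. -/
theorem isom {E : Type} [Field E] [CharZero E] {g : ℕ} {f h : E[X]} (hf : f.Monic)
    (hd : f.natDegree = 2 * g + 1) (hcop : IsCoprime h f)
    (hsq : IsSquare (Algebra.norm E (AdjoinRoot.mk f h))) (hloc : LocIm E f h) :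
    ∃ T : Mt g E, T * Gm g f 1 * Tᵀ = Gm g f h := by
  obtain ⟨T2, h2⟩ := frm hf hd hcop hsq hloc
  have hn1 : Algebra.norm E (AdjoinRoot.mk f 1) = 1 := by rw [map_one, map_one]
  obtain ⟨T1, h1⟩ := frm (h := 1) hf hd isCoprime_one_left
    (by rw [hn1]; exact ⟨1, (one_mul 1).symm⟩) ⟨[], 1, by simp, by simp⟩
  have hdet : IsUnit T1.det := by
    have e := congrArg Matrix.det h1
    rw [Matrix.det_mul, Matrix.det_mul, det_Gm hf hd, hn1, mul_one] at e
    rw [isUnit_iff_ne_zero]
    intro h0
    rw [h0, zero_mul, zero_mul] at e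
    exact pow_ne_zero g (neg_ne_zero.2 one_ne_zero) e.symm
  refine ⟨T2 * T1⁻¹, ?_⟩
  rw [← h1, ← h2, Matrix.transpose_mul]
  have e1 : T1⁻¹ * T1 = 1 := Matrix.nonsing_inv_mul T1 hdet
  have e2 : T1ᵀ * T1⁻¹ᵀ = 1 := by rw [← Matrix.transpose_mul, e1, Matrix.transpose_one]
  calc T2 * T1⁻¹ * (T1 * diagonal (sg g) * T1ᵀ) * (T1⁻¹ᵀ * T2ᵀ)
      = T2 * (T1⁻¹ * T1) * diagonal (sg g) * (T1ᵀ * T1⁻¹ᵀ) * T2ᵀ := by
        simp only [Matrix.mul_assoc]
    _ = _ := by rw [e1, e2, Matrix.mul_one, Matrix.mul_one]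

theorem Gm_map {K E : Type} [Field K] [Field E] (φ : K →+* E) (g : ℕ) {f : K[X]} (hf : f.Monic)
    (h : K[X]) : Gm g (f.map φ) (h.map φ) = (Gm g f h).map φ := by
  ext i j
  rw [Matrix.map_apply]
  unfold Gm tp
  rw [Matrix.of_apply, Matrix.of_apply, ← Polynomial.coeff_map, Polynomial.map_modByMonic _ hf,
    Polynomial.map_mul, Polynomial.map_pow, Polynomial.map_X]

theorem isom_map {K E : Type} [Field K] [Field E] [CharZero E] (φ : K →+* E) {g : ℕ}
    {f h : K[X]} (hf : f.Monic) (hd : f.natDegree = 2 * g + 1) (hcop : IsCoprime h f)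
    (hsq : IsSquare (Algebra.norm K (AdjoinRoot.mk f h))) (hloc : LocIm E (f.map φ) (h.map φ)) :
    ∃ T : Mt g E, T * (Gm g f 1).map φ * Tᵀ = (Gm g f h).map φ := by
  have hf' : (f.map φ).Monic := hf.map φ
  have hd' : (f.map φ).natDegree = 2 * g + 1 := by rw [hf.natDegree_map, hd]
  have e : Algebra.norm E (AdjoinRoot.mk (f.map φ) (h.map φ)) =
      φ (Algebra.norm K (AdjoinRoot.mk f h)) := by
    have e1 := det_Gm (h := h.map φ) hf' hd'
    rw [Gm_map φ g hf, ← RingHom.mapMatrix_apply, ← RingHom.map_det, det_Gm hf hd, map_mul,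
      map_pow, map_neg, map_one] at e1
    exact (mul_left_cancel₀ (pow_ne_zero g (neg_ne_zero.2 one_ne_zero)) e1).symm
  have hcop' : IsCoprime (h.map φ) (f.map φ) := hcop.map (Polynomial.mapRingHom φ)
  obtain ⟨T, hT⟩ := isom hf' hd' hcop' (by rw [e]; exact hsq.map φ) hloc
  refine ⟨T, ?_⟩
  have e2 := Gm_map φ g hf 1
  rw [Polynomial.map_one] at e2
  rw [← e2, ← Gm_map φ g hf h, ← hT]

section apx

variable {F : Type} [Field F] [NumberField F] (w : HeightOneSpectrum (𝓞 F))

theorem vx (x : F) : Valued.v (algebraMap F (w.adicCompletion F) x) = w.valuation F x :=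
  HeightOneSpectrum.valuedAdicCompletion_eq_valuation' w x

/-- Small balls are neighbourhoods of zero. -/
theorem ball (k : ℕ) : {x : w.adicCompletion F |
    Valued.v x ≤ WithZero.exp (-(k : ℤ))} ∈ 𝓝 (0 : w.adicCompletion F) := by
  obtain ⟨π, hπ⟩ := w.valuation_exists_uniformizer F
  have hv : Valued.v (algebraMap F (w.adicCompletion F) (π ^ k)) = WithZero.exp (-(k : ℤ)) := by
    rw [vx, map_pow, hπ, ← WithZero.exp_nsmul]
    congr 1
    simp
  have hne : (Valued.v (R := w.adicCompletion F)).restrict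
      (algebraMap F (w.adicCompletion F) (π ^ k)) ≠ 0 := by
    rw [Valuation.ne_zero_iff]
    intro h0
    rw [h0, map_zero] at hv
    exact WithZero.exp_ne_zero hv.symm
  rw [Valued.mem_nhds_zero]
  refine ⟨Units.mk0 _ hne, fun x hx => ?_⟩
  have hx' : Valued.v x < Valued.v (algebraMap F (w.adicCompletion F) (π ^ k)) :=
    (Valuation.restrict_lt_iff _).1 hx
  rw [hv] at hx'
  exact hx'.le

/-- Approximation of an isometry. -/
theorem apx {ι : Type} [Fintype ι] (A B : Matrix ι ι F) (T : Matrix ι ι (w.adicCompletion F))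
    (hT : T * A.map (algebraMap F (w.adicCompletion F)) * Tᵀ =
      B.map (algebraMap F (w.adicCompletion F))) : Apx w A B := by
  intro k
  set φ := algebraMap F (w.adicCompletion F) with hφ
  have hU : {T' : Matrix ι ι (w.adicCompletion F) | ∀ i j,
      (T' * A.map φ * T'ᵀ) i j - φ (B i j) ∈ {x : w.adicCompletion F |
        Valued.v x ≤ WithZero.exp (-(k : ℤ))}} ∈ 𝓝 T := by
    refine Filter.eventually_all.2 fun i => Filter.eventually_all.2 fun j => ?_
    have hc : Continuous fun T' : Matrix ι ι (w.adicCompletion F) =>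
        (T' * A.map φ * T'ᵀ) i j - φ (B i j) :=
      (((continuous_id.matrix_mul continuous_const).matrix_mul
        continuous_id.matrix_transpose).matrix_elem i j).sub continuous_const
    refine hc.continuousAt.preimage_mem_nhds ?_
    rw [hT, Matrix.map_apply, sub_self]
    exact ball w k
  have hd : DenseRange (fun T₀ : Matrix ι ι F => T₀.map φ) :=
    DenseRange.piMap fun i => DenseRange.piMap fun j => w.denseRange_algebraMap F
  obtain ⟨T₀, hT₀⟩ := hd.mem_nhds hU
  refine ⟨T₀, fun i j => ?_⟩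
  have e := hT₀ i j
  rw [← Matrix.transpose_map, ← Matrix.map_mul, ← Matrix.map_mul, Matrix.map_apply,
    ← map_sub] at e
  exact (vx w _).symm.le.trans e

end apx

/-- Classes in the image of the Jacobian give isometric forms. -/
theorem iso1 : Pool.Agent.N783.PF.S_ISO1 := by
  intro F _ _ g f h hf hd hcop hsq
  have hf' : (fF f).Monic := hf.map _
  have hd' : (fF f).natDegree = 2 * g + 1 := by rw [hf.natDegree_map, hd]
  refine ⟨fun w hloc => ?_, fun σ hloc => ?_⟩
  · haveI : CharZero (w.adicCompletion F) :=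
      charZero_of_injective_algebraMap (algebraMap F (w.adicCompletion F)).injective
    obtain ⟨T, hT⟩ := isom_map (algebraMap F (w.adicCompletion F)) hf' hd' hcop hsq hloc
    exact apx w _ _ T hT
  · exact isom_map σ hf' hd' hcop hsq hloc

end Pool.Agent.N591.PF
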